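import Pool.Agent.H46.P.Class
import Pool.Agent.H83.HN.LAT

/-!
# Module MEMB of THEOREM P: the special members near `X`

`near` gives members `Y_k` near `X` with rational period, on which `a` is ample. If the plane is
good with a large constant, `L` is nef on `Y_k` (LEMMA N); then the horoball argument of
`H83.HN.member` and the parabolic group of `H83.HN.para`.
-/

namespace Pool.Agent.H41.P

open Pool.Agent.H83.HN Pool.Agent.H46.P Filter Topology

section horoball

variable {d : ℕ} {Lam : Type} [AddCommGroup Lam]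

/-- The horoball on a given member with rational good period, on which `A0` is ample and `L` is
nef. -/
theorem horo_of (C : ModClass d Lam) {L A0 p1 p2 : Lam} (hL0 : L ≠ 0) (hLL : C.q L L = 0)
    (hA0 : 0 < C.q A0 A0) (hAL : 0 < C.q A0 L) {B : ℤ} (hB0 : 0 ≤ B)
    (hB : ∀ z ∈ C.MBM, - B ≤ C.q z z) (hg : Good C.q A0 L p1 p2 B) (Y : C.Mem)
    (hNS : ∀ x, x ∈ (C.M Y).NS ↔ C.q x p1 = 0 ∧ C.q x p2 = 0)
    (hLnef : L ∈ (C.M Y).Nef) (hA0Y : A0 ∈ (C.M Y).Ample) :
    ∃ (A : Lam) (t : ℕ) (n : ℕ),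
      A = n • (A0 + t • L) ∧ A ∈ (C.M Y).VeryAmple ∧ 0 < C.q A L ∧
      B * (C.q L A) ^ 2 < C.q A A ∧
      (∀ y ∈ (C.M Y).NS, 0 < C.q y y → 0 < C.q y L → B * (C.q L y) ^ 2 < C.q y y →
        y ∈ (C.M Y).Ample) ∧
      (∀ D ∈ (C.M Y).Prime, C.q D L = 0 → ∃ a b : ℕ, 0 < a ∧ 0 < b ∧ a • D = b • L) := by
  obtain ⟨h1, h2, h12, hA1, hA2, hL1, hL2, hgood⟩ := hg
  have hq := C.form
  have hs := C.sig
  set q := C.q with hqdef
  -- the class kappa
  obtain ⟨t, ht⟩ : ∃ t : ℕ, B * (q L A0) ^ 2 < q A0 A0 + 2 * t * q A0 L := by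
    refine ⟨(B * (q L A0) ^ 2).toNat, ?_⟩
    have h0 : 0 ≤ B * (q L A0) ^ 2 := by positivity
    have : (((B * (q L A0) ^ 2).toNat : ℕ) : ℤ) = B * (q L A0) ^ 2 := Int.toNat_of_nonneg h0
    rw [this]
    nlinarith
  set kap : Lam := A0 + t • L with hkap
  have hkL : q kap L = q A0 L := by
    rw [hkap, hq.add, hq.nsmul_left, hLL]
    ring
  have hLk : q L kap = q A0 L := by rw [hq.symm, hkL]
  have hkk : q kap kap = q A0 A0 + 2 * t * q A0 L := by
    rw [hkap, hq.add, hq.add_right, hq.add_right, hq.nsmul_left, hq.nsmul_left, hq.nsmul_right,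
      hq.nsmul_right, hLL, hq.symm L A0]
    ring
  have hk1 : q kap p1 = 0 := by
    rw [hkap, hq.add, hq.nsmul_left, hA1, hL1]
    ring
  have hk2 : q kap p2 = 0 := by
    rw [hkap, hq.add, hq.nsmul_left, hA2, hL2]
    ring
  have hkpos : 0 < q kap kap := by
    rw [hkk]
    have : 0 ≤ 2 * (t : ℤ) * q A0 L := by positivity
    linarith
  have hkhoro : B * (q L kap) ^ 2 < q kap kap := by
    rw [hkk, hLk]
    have h := ht
    rw [hq.symm L A0] at h
    exact h
  -- no wall meets the horoball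
  have hwall : ∀ z ∈ C.MBM, q z p1 = 0 → q z p2 = 0 → ∀ y, q y p1 = 0 → q y p2 = 0 → 0 < q y y →
      B * (q L y) ^ 2 < q y y → q y z ≠ 0 := by
    intro z hz hz1 hz2 y hy1 hy2 hy hyB hyz
    have hzz := C.mbm_neg z hz
    have := horo hs hq h1 h2 h12 hL1 hL2 hLL hy1 hy2 hy hz1 hz2 hzz hyz
    have hzL : q L z ≠ 0 := by
      intro h
      exact hgood z hz1 hz2 (by rw [hq.symm, h]) (hB z hz) hzz
    have h3 : 1 ≤ (q L z) ^ 2 := by
      have : 0 < (q L z) ^ 2 := by positivity
      omega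
    have h4 : (- q z z) * (q L y) ^ 2 ≤ B * (q L y) ^ 2 := by
      have := hB z hz
      have h5 : - q z z ≤ B := by linarith
      exact mul_le_mul_of_nonneg_right h5 (by positivity)
    nlinarith
  have hnefmul : ∀ m : ℕ, m • L ∈ (C.M Y).Nef := by
    intro m
    induction m with
    | zero => rw [zero_smul]; exact (C.M Y).nef_zero
    | succ m ih => rw [succ_nsmul]; exact (C.M Y).nef_add _ ih _ hLnef
  have hkA : kap ∈ (C.M Y).Ample := (C.M Y).ample_add A0 hA0Y _ (hnefmul t)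
  -- signs on the horoball
  have hsign : ∀ z ∈ C.MBM, q z p1 = 0 → q z p2 = 0 → ∀ y, q y p1 = 0 → q y p2 = 0 → 0 < q y y →
      0 < q y L → B * (q L y) ^ 2 < q y y → 0 < q L z → 0 < q y z := by
    intro z hz hz1 hz2 y hy1 hy2 hy hyL hyB hLz
    by_contra h
    push Not at h
    set y' : Lam := (q L z) • y - (q y z) • L with hy'
    have e1 : q y' z = 0 := by
      rw [hy', hq.sub_left, hq.zsmul_left, hq.zsmul_left]
      ring
    have e2 : q y' p1 = 0 := by
      rw [hy', hq.sub_left, hq.zsmul_left, hq.zsmul_left, hy1, hL1]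
      ring
    have e3 : q y' p2 = 0 := by
      rw [hy', hq.sub_left, hq.zsmul_left, hq.zsmul_left, hy2, hL2]
      ring
    have e4 : q y' y' = (q L z) ^ 2 * q y y - 2 * (q L z * q y z) * q y L := by
      rw [hy', hq.sub_left, hq.zsmul_left, hq.zsmul_left, hq.sub_right, hq.sub_right,
        hq.zsmul_right, hq.zsmul_right, hq.zsmul_right, hq.zsmul_right, hLL, hq.symm L y]
      ring
    have e5 : q L y' = q L z * q L y := by
      rw [hy', hq.sub_right, hq.zsmul_right, hq.zsmul_right, hLL]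
      ring
    have e6 : (q L z) ^ 2 * q y y ≤ q y' y' := by
      rw [e4]
      have : 0 ≤ (q L z * (- q y z)) * q y L := by
        apply mul_nonneg (mul_nonneg hLz.le (by omega)) hyL.le
      linarith
    have e7 : 0 < (q L z) ^ 2 * q y y := by positivity
    refine hwall z hz hz1 hz2 y' e2 e3 (by linarith) ?_ e1
    rw [e5]
    have : B * (q L z * q L y) ^ 2 = (q L z) ^ 2 * (B * (q L y) ^ 2) := by ring
    rw [this]
    have h8 : (q L z) ^ 2 * (B * (q L y) ^ 2) < (q L z) ^ 2 * q y y :=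
      mul_lt_mul_of_pos_left hyB (by positivity)
    linarith
  have hhoro : ∀ y ∈ (C.M Y).NS, 0 < q y y → 0 < q y L → B * (q L y) ^ 2 < q y y →
      y ∈ (C.M Y).Ample := by
    intro y hy hyy hyL hyB
    obtain ⟨hy1, hy2⟩ := (hNS y).1 hy
    refine C.chamber Y kap hkA y hy hyy ?_ ?_
    · exact pos_pair hs hq h1 h2 h12 hL1 hL2 hLL hL0 hy1 hy2 hyy hk1 hk2 hkpos hyL
        (by rw [hkL]; exact hAL)
    · intro z hz hzNS hkz
      obtain ⟨hz1, hz2⟩ := (hNS z).1 hzNS
      have hLz0 : q L z ≠ 0 := by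
        intro h
        exact hgood z hz1 hz2 (by rw [hq.symm, h]) (hB z hz) (C.mbm_neg z hz)
      have hLz : 0 < q L z := by
        rcases lt_or_gt_of_ne hLz0 with h | h
        · exfalso
          -- use the class -q(L,z) kap + q(kap,z) L
          set y' : Lam := (- q L z) • kap + (q kap z) • L with hy'
          have e1 : q y' z = 0 := by
            rw [hy', hq.add, hq.zsmul_left, hq.zsmul_left]
            ring
          have e2 : q y' p1 = 0 := by
            rw [hy', hq.add, hq.zsmul_left, hq.zsmul_left, hk1, hL1]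
            ring
          have e3 : q y' p2 = 0 := by
            rw [hy', hq.add, hq.zsmul_left, hq.zsmul_left, hk2, hL2]
            ring
          have e4 : q y' y' = (q L z) ^ 2 * q kap kap + 2 * ((- q L z) * q kap z) * q kap L := by
            rw [hy', hq.add, hq.zsmul_left, hq.zsmul_left, hq.add_right, hq.add_right,
              hq.zsmul_right, hq.zsmul_right, hq.zsmul_right, hq.zsmul_right, hLL, hq.symm L kap]
            ring
          have e5 : q L y' = (- q L z) * q L kap := by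
            rw [hy', hq.add_right, hq.zsmul_right, hq.zsmul_right, hLL]
            ring
          have e6 : (q L z) ^ 2 * q kap kap ≤ q y' y' := by
            rw [e4]
            have : 0 ≤ ((- q L z) * q kap z) * q kap L := by
              apply mul_nonneg (mul_nonneg (by omega) hkz.le)
              rw [hkL]
              exact hAL.le
            linarith
          have e7 : 0 < (q L z) ^ 2 * q kap kap := by positivity
          refine hwall z hz hz1 hz2 y' e2 e3 (by linarith) ?_ e1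
          rw [e5]
          have : B * (- q L z * q L kap) ^ 2 = (q L z) ^ 2 * (B * (q L kap) ^ 2) := by ring
          rw [this]
          have h8 : (q L z) ^ 2 * (B * (q L kap) ^ 2) < (q L z) ^ 2 * q kap kap :=
            mul_lt_mul_of_pos_left hkhoro (by positivity)
          linarith
        · exact h
      exact hsign z hz hz1 hz2 y hy1 hy2 hyy hyL hyB hLz
  obtain ⟨n, hn, hva⟩ := (C.M Y).exists_va kap hkA
  have hn' : (0 : ℤ) < n := by exact_mod_cast hn
  refine ⟨n • kap, t, n, rfl, hva, ?_, ?_, hhoro, ?_⟩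
  · change 0 < q (n • kap) L
    rw [hq.nsmul_left, hkL]
    positivity
  · change B * (q L (n • kap)) ^ 2 < q (n • kap) (n • kap)
    rw [hq.nsmul_left, hq.nsmul_right, hq.nsmul_right]
    have : B * (n * q L kap) ^ 2 = n ^ 2 * (B * (q L kap) ^ 2) := by ring
    rw [this]
    have h8 : (n : ℤ) ^ 2 * (B * (q L kap) ^ 2) < n ^ 2 * q kap kap :=
      mul_lt_mul_of_pos_left hkhoro (by positivity)
    linarith
  · intro D hD hDL
    obtain ⟨hD1, hD2⟩ := (hNS D).1 ((C.M Y).prime_NS hD)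
    by_cases hDD : q D D < 0
    · exfalso
      obtain ⟨z, hz, a, b, ha, hb, hab⟩ := C.prime_mbm Y D hD hDD
      have hb' : (b : ℤ) ≠ 0 := by exact_mod_cast hb.ne'
      have key : ∀ v, q D v = 0 → q z v = 0 := by
        intro v hv
        have e : q (a • D) v = q (b • z) v := by rw [hab]
        rw [hq.nsmul_left, hq.nsmul_left, hv, mul_zero] at e
        exact (mul_eq_zero.1 e.symm).resolve_left hb'
      exact hgood z (key p1 hD1) (key p2 hD2) (key L hDL) (hB z hz) (C.mbm_neg z hz)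
    · push Not at hDD
      have h3 := light hs hq h1 h2 h12 hL1 hL2 hLL hD1 hD2 hDD hk1 hk2 hkpos hDL
      have hkL' : 0 < q kap L := by rw [hkL]; exact hAL
      have hkD : 0 < q kap D := by
        rw [hq.symm]
        exact (C.M Y).prime_ample D hD kap hkA
      refine ⟨(q kap L).toNat, (q kap D).toNat, by omega, by omega, ?_⟩
      have c1 : ((q kap L).toNat : ℤ) • D = (q kap L).toNat • D := natCast_zsmul _ _
      have c2 : ((q kap D).toNat : ℤ) • L = (q kap D).toNat • L := natCast_zsmul _ _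
      rw [← c1, ← c2, Int.toNat_of_nonneg hkL'.le, Int.toNat_of_nonneg hkD.le]
      exact h3

end horoball

section lemmaN

variable {n : ℕ} {Lam : Type} [AddCommGroup Lam]

theorem per_re_lin {q : Lam → Lam → ℤ} (hq : IsForm q) (π : Per q) (a b : ℤ) (x y : Lam) :
    π.re (a • x + b • y) = a * π.re x + b * π.re y := by
  unfold Per.re
  rw [Finset.mul_sum, Finset.mul_sum, ← Finset.sum_add_distrib]
  refine Finset.sum_congr rfl fun j _ => ?_
  rw [hq.add, hq.zsmul_left, hq.zsmul_left]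
  push_cast
  ring

theorem per_im_lin {q : Lam → Lam → ℤ} (hq : IsForm q) (π : Per q) (a b : ℤ) (x y : Lam) :
    π.im (a • x + b • y) = a * π.im x + b * π.im y := by
  unfold Per.im
  rw [Finset.mul_sum, Finset.mul_sum, ← Finset.sum_add_distrib]
  refine Finset.sum_congr rfl fun j _ => ?_
  rw [hq.add, hq.zsmul_left, hq.zsmul_left]
  push_cast
  ring

/-- LEMMA N. If `a` is ample and `L` nef and isotropic on `X`, `a` is ample on `Y`, and the rational
period of `Y` is good with the constant `q(a,L)^4 B`, then `L` is nef on `Y`. -/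
theorem lemma_N (C : PClass n Lam) (X : C.Mem) {a L p1 p2 : Lam} (ha : a ∈ (C.M X).Ample)
    (hL : L ∈ (C.M X).Nef) (hL0 : L ≠ 0) (hLL : C.q L L = 0) {B : ℤ}
    (hB : ∀ z ∈ C.MBM, - B ≤ C.q z z)
    (hg : Good C.q a L p1 p2 ((C.q a L) ^ 4 * B)) (Y : C.Mem)
    (hNS : ∀ x, x ∈ (C.M Y).NS ↔ C.q x p1 = 0 ∧ C.q x p2 = 0)
    (haY : a ∈ (C.M Y).Ample) : L ∈ (C.M Y).Nef := by
  obtain ⟨h1, h2, h12, hA1, hA2, hL1, hL2, hgood⟩ := hg
  have hq := C.toModClass.form
  have hs := C.toModClass.sig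
  have haa : 0 < C.q a a := (C.M X).ample_q a ha
  have haL : 0 < C.q a L := (C.M X).ample_nef_q a ha L hL hL0
  have hLa : C.q L a = C.q a L := hq.symm _ _
  have hLNS : L ∈ (C.M Y).NS := (hNS L).2 ⟨hL1, hL2⟩
  have haNS : a ∈ (C.M Y).NS := (hNS a).2 ⟨hA1, hA2⟩
  -- the walls of `Y` are on the right side of `L`
  have key : ∀ z ∈ C.MBM, z ∈ (C.M Y).NS → 0 < C.q a z → 0 ≤ C.q L z := by
    intro z hz hzNS haz
    by_contra hneg
    push Not at hneg
    obtain ⟨hz1, hz2⟩ := (hNS z).1 hzNS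
    have hza : C.q z a = C.q a z := hq.symm _ _
    have hzL : C.q z L = C.q L z := hq.symm _ _
    set c : ℤ := C.q a L with hc
    set w : Lam := (c ^ 2) • z - (c * C.q L z) • a - (c * C.q a z - C.q L z * C.q a a) • L
      with hw
    have hwx : ∀ x, C.q w x = c ^ 2 * C.q z x - c * C.q L z * C.q a x
        - (c * C.q a z - C.q L z * C.q a a) * C.q L x := by
      intro x
      rw [hw, hq.sub_left, hq.sub_left, hq.zsmul_left, hq.zsmul_left, hq.zsmul_left]
    have hw1 : C.q w p1 = 0 := by rw [hwx, hz1, hA1, hL1]; ring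
    have hw2 : C.q w p2 = 0 := by rw [hwx, hz2, hA2, hL2]; ring
    have hwL : C.q w L = 0 := by
      rw [hwx, hLL, hzL, ← hc]
      ring
    have hwa : C.q w a = 0 := by
      rw [hwx, hza, hLa]
      ring
    have hww : C.q w w = c ^ 2 * C.q w z := by
      have e := hwx w
      rw [hq.symm z w, hq.symm a w, hq.symm L w, hwL, hwa] at e
      linarith
    have hwz : C.q w z = c ^ 2 * C.q z z - 2 * c * (C.q L z * C.q a z)
        + (C.q L z) ^ 2 * C.q a a := by
      rw [hwx]
      ring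
    have hwwge : - (c ^ 4 * B) ≤ C.q w w := by
      have e1 := hB z hz
      have e2 : 0 ≤ - (C.q L z * C.q a z) := by
        have := mul_nonneg (neg_nonneg.2 hneg.le) haz.le
        linarith
      have e3 : 0 ≤ (C.q L z) ^ 2 * C.q a a := by positivity
      have e4 : 0 ≤ c * (- (C.q L z * C.q a z)) := mul_nonneg haL.le e2
      have e5 : c ^ 2 * (-B) ≤ C.q w z := by
        rw [hwz]
        have e6 : c ^ 2 * (-B) ≤ c ^ 2 * C.q z z := mul_le_mul_of_nonneg_left e1 (by positivity)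
        linarith
      have e7 : c ^ 2 * (c ^ 2 * (-B)) ≤ c ^ 2 * C.q w z :=
        mul_le_mul_of_nonneg_left e5 (by positivity)
      rw [hww]
      have e8 : - (c ^ 4 * B) = c ^ 2 * (c ^ 2 * (-B)) := by ring
      rw [e8]
      exact e7
    have hw0 : w = 0 := by
      by_contra hne
      have hlt := hs p1 p2 a h1 h2 haa h12 (by rw [hq.symm, hA1]) (by rw [hq.symm, hA2]) w
        hw1 hw2 hwa hne
      exact hgood w hw1 hw2 hwL hwwge hlt
    -- `z` is algebraic on `X`
    have hzX : z ∈ (C.M X).NS := by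
      have haX : a ∈ (C.M X).NS := (C.M X).nef_NS ((C.M X).ample_nef ha)
      have hLX : L ∈ (C.M X).NS := (C.M X).nef_NS hL
      obtain ⟨ra, ia⟩ := (C.NS_per X a).1 haX
      obtain ⟨rL, iL⟩ := (C.NS_per X L).1 hLX
      have hcz : (c ^ 2) • z + (0 : ℤ) • z = (c * C.q L z) • a
          + (c * C.q a z - C.q L z * C.q a a) • L := by
        rw [zero_smul, add_zero]
        have := hw0
        rw [hw, sub_sub, sub_eq_zero] at this
        exact this
      have hcR : ((c ^ 2 : ℤ) : ℝ) ≠ 0 := by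
        have : (c ^ 2 : ℤ) ≠ 0 := pow_ne_zero 2 haL.ne'
        exact_mod_cast this
      refine (C.NS_per X z).2 ⟨?_, ?_⟩
      · have e := congrArg (C.per X).re hcz
        rw [per_re_lin hq, per_re_lin hq, ra, rL] at e
        have e' : ((c ^ 2 : ℤ) : ℝ) * (C.per X).re z = 0 := by
          simpa using e
        exact (mul_eq_zero.1 e').resolve_left hcR
      · have e := congrArg (C.per X).im hcz
        rw [per_im_lin hq, per_im_lin hq, ia, iL] at e
        have e' : ((c ^ 2 : ℤ) : ℝ) * (C.per X).im z = 0 := by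
          simpa using e
        exact (mul_eq_zero.1 e').resolve_left hcR
    -- against `wall` on `X`
    have hnefmul : ∀ m : ℕ, m • L ∈ (C.M X).Nef := by
      intro m
      induction m with
      | zero => rw [zero_smul]; exact (C.M X).nef_zero
      | succ m ih => rw [succ_nsmul]; exact (C.M X).nef_add _ ih _ hL
    have hy := (C.M X).ample_add a ha _ (hnefmul (C.q a z).toNat)
    have h3 := C.wall X z hz hzX a ha _ hy haz
    rw [hq.add, hq.nsmul_left, Int.toNat_of_nonneg haz.le] at h3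
    have h4 : C.q a z * C.q L z ≤ C.q a z * (-1) :=
      mul_le_mul_of_nonneg_left (by omega) haz.le
    linarith
  refine (C.M Y).nef_limit a haY L hLNS fun m => ?_
  have haNS' : a + m • L ∈ (C.M Y).NS := add_mem haNS (nsmul_mem hLNS m)
  have e1 : C.q (a + m • L) (a + m • L) = C.q a a + 2 * m * C.q a L := by
    rw [hq.add a (m • L), hq.add_right a (m • L) a, hq.add_right a (m • L) (m • L),
      hq.nsmul_left, hq.nsmul_left, hq.nsmul_right, hq.nsmul_right, hLL, hLa]
    ring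
  have hm0 : (0 : ℤ) ≤ m := Int.natCast_nonneg m
  refine C.chamber Y a haY _ haNS' ?_ ?_ ?_
  · rw [e1]
    have : 0 ≤ 2 * (m : ℤ) * C.q a L := by positivity
    linarith
  · rw [hq.add, hq.nsmul_left, hLa]
    have : 0 ≤ (m : ℤ) * C.q a L := by positivity
    linarith
  · intro z hz hzNS haz
    rw [hq.add, hq.nsmul_left]
    have := mul_nonneg hm0 (key z hz hzNS haz)
    linarith

end lemmaN

section memb

variable {n : ℕ} {Lam : Type} [AddCommGroup Lam]

/-- The conclusion of DENS. -/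
def Dens (C : PClass n Lam) (X : C.Mem) (a L : Lam) (B : ℤ) : Prop :=
  ∃ (p1 p2 : ℕ → Lam) (s t : ℕ → ℝ), (∀ k, Good C.q a L (p1 k) (p2 k) B) ∧
      (∀ x, Tendsto (fun k => s k * (C.q x (p1 k) : ℝ)) atTop (𝓝 ((C.per X).re x))) ∧
      (∀ x, Tendsto (fun k => t k * (C.q x (p2 k) : ℝ)) atTop (𝓝 ((C.per X).im x)))

/-- MODULE MEMB, given DENS. -/
theorem memb_of (C : PClass n Lam) (X : C.Mem) {L : Lam} (hL : L ∈ (C.M X).Nef) (hL0 : L ≠ 0)
    (hLL : C.q L L = 0) (hdens : ∀ a ∈ (C.M X).Ample, ∀ B, Dens C X a L B) :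
    ∃ Y : ℕ → C.Mem, (∀ k,
      (∀ x, ∀ a : ℕ, 0 < a → a • x ∈ (C.M (Y k)).NS → x ∈ (C.M (Y k)).NS) ∧
      L ∈ (C.M (Y k)).Nef ∧
      (∀ D ∈ (C.M (Y k)).Prime, C.q D L = 0 → ∃ a b : ℕ, 0 < a ∧ 0 < b ∧ a • D = b • L) ∧
      ∃ A ∈ (C.M (Y k)).VeryAmple, Nonempty (Para (C.M (Y k)) L A 1)) ∧
      ∀ m : ℕ, (∀ k1, ∃ k, k1 ≤ k ∧ (C.M (Y k)).Sec (m • L) ≠ ⊥) →
        (C.M X).Sec (m • L) ≠ ⊥ := by
  have hq := C.toModClass.form
  obtain ⟨a, ha⟩ := (C.M X).exists_ample
  have haa : 0 < C.q a a := (C.M X).ample_q a ha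
  have haL : 0 < C.q a L := (C.M X).ample_nef_q a ha L hL hL0
  obtain ⟨B', hB'⟩ := C.mbm_bdd
  set B : ℤ := max B' 0 with hBdef
  have hB0 : 0 ≤ B := le_max_right _ _
  have hB : ∀ z ∈ C.MBM, - B ≤ C.q z z := by
    intro z hz
    have := hB' z hz
    have h3 : B' ≤ B := le_max_left _ _
    linarith
  obtain ⟨p1, p2, s, t, hgood, hre, him⟩ := hdens a ha ((C.q a L) ^ 4 * B)
  have hLX : L ∈ (C.M X).NS := (C.M X).nef_NS hL
  obtain ⟨Y, k0, hY, hsemi⟩ := C.near X a ha L hLX p1 p2 s t (fun k => (hgood k).1)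
    (fun k => (hgood k).2.1) (fun k => (hgood k).2.2.1)
    (fun k => ⟨(hgood k).2.2.2.1, (hgood k).2.2.2.2.1, (hgood k).2.2.2.2.2.1,
      (hgood k).2.2.2.2.2.2.1⟩) hre him
  refine ⟨fun k => Y (k0 + k), fun k => ?_, fun m hm => hsemi m fun k1 => ?_⟩
  · obtain ⟨hNS, haY⟩ := hY (k0 + k) (Nat.le_add_right _ _)
    have hg := hgood (k0 + k)
    have hLY : L ∈ (C.M (Y (k0 + k))).Nef :=
      lemma_N C X ha hL hL0 hLL hB hg (Y (k0 + k)) hNS haY
    -- good also for the constant `B`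
    have hg' : Good C.q a L (p1 (k0 + k)) (p2 (k0 + k)) B := by
      obtain ⟨g1, g2, g3, g4, g5, g6, g7, g8⟩ := hg
      refine ⟨g1, g2, g3, g4, g5, g6, g7, fun z e1 e2 e3 e4 e5 => g8 z e1 e2 e3 ?_ e5⟩
      have h1 : (1 : ℤ) ≤ (C.q a L) ^ 4 := by
        have : (0 : ℤ) < (C.q a L) ^ 4 := by positivity
        omega
      have h2 : 1 * B ≤ (C.q a L) ^ 4 * B := mul_le_mul_of_nonneg_right h1 hB0
      linarith
    obtain ⟨A, t', n', hAt, hva, hAL', hAB, hhoro, hprime⟩ :=
      horo_of C.toModClass hL0 hLL haa haL hB0 hB hg' (Y (k0 + k)) hNS hLY haY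
    obtain ⟨g1, g2, g3, g4, g5, g6, g7, g8⟩ := hg'
    obtain ⟨b, hbl, hb⟩ := vectors 1 C.free C.finite C.rank C.q C.q_add
      (p1 (k0 + k)) (p2 (k0 + k)) a L
    refine ⟨?_, hLY, hprime, A, hva,
      para C.toModClass hLL g1 g2 g3 g6 g7 (Y (k0 + k)) A t' n' hNS hAt hva hAL' hAB hhoro b hbl
        (fun i => (hb i).1) (fun i => (hb i).2.1) (fun i => (hb i).2.2.1)
        (fun i => (hb i).2.2.2)⟩
    intro x j hj hx
    obtain ⟨e1, e2⟩ := (hNS _).1 hx
    rw [hq.nsmul_left] at e1 e2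
    have hj' : (j : ℤ) ≠ 0 := by exact_mod_cast hj.ne'
    exact (hNS x).2 ⟨(mul_eq_zero.1 e1).resolve_left hj', (mul_eq_zero.1 e2).resolve_left hj'⟩
  · obtain ⟨k, hk, hkne⟩ := hm k1
    exact ⟨k0 + k, by omega, hkne⟩

end memb

end Pool.Agent.H41.P
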